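import Pool.Agent.HComm.Transfer

/-!
# Rings with nilpotent commutators: persistent left ideals

Let `S` be a ring with identity in which every commutator is nilpotent and let `w ∈ S`.  A left ideal
`U` is persistent if `U w ⊆ U`, (`x w ∈ U ⇒ x ∈ U`) and `1 ∉ U`.  Let `U` be a maximal persistent
left ideal (there is one if `w` is not nilpotent).

* `closed_one`: if `n ∈ U` and `w b ∈ U` then `n b ∈ U`.  Otherwise `w ^ k ∈ U + ∑ S n b w ^ i` for
  some `k`, `w ^ k ≡ ∑ ρ_i n b w ^ i`.  Put `Y = (1 + b) w`; then `Y ^ j ≡ (1 + b) w ^ j` modulo `U`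
  for `j ≥ 1`, so `c = ∑ [ρ_i n, Y ^ (i + 1)] ≡ w ^ (k + 1)`; this is one commutator `[Z, Y]`
  (`sum_comm_pow`), and `c ^ m = 0` gives `w ^ (m (k + 1)) ∈ U`.
* `pow_notMem_adj`: no power of `w` is in `U + U Y + U Y ^ 2 + ...`, for every `Y` (and every persistent
  `U`): `∑ n_i Y ^ i ≡ ∑ [n_i, Y ^ i]`.
* `closed_comm`: if `w b - b w ∈ U` then `U + U b + U b ^ 2 + ...` is closed under right
  multiplication by `w`, hence equal to `U`.  So `{b | w b - b w ∈ U}` is a ring, `U` is an ideal of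
  it, and the quotient has no zero divisors (`comm_domain`), hence is commutative (`comm_comm`).
* `max_pow`: `U` is also a maximal persistent left ideal for `w ^ m`: if `V ⊇ U` is one, then
  `V w ⊆ V` and (`x w ∈ V ⇒ x ∈ V`) by the previous statements for `w ^ m` and `b = w`.
-/

namespace Pool.Agent.HComm

section unital

variable {S : Type*} [Ring S]

/-- `[u, Y ^ m]` is a commutator with `Y` -/
theorem comm_pow (u Y : S) (m : ℕ) : ∃ z, u * Y ^ m - Y ^ m * u = z * Y - Y * z := by
  induction m with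
  | zero => exact ⟨0, by simp⟩
  | succ m ih =>
    obtain ⟨z, hz⟩ := ih
    refine ⟨z * Y + Y ^ m * u, ?_⟩
    have h1 : u * Y ^ (m + 1) - Y ^ (m + 1) * u
        = (u * Y ^ m - Y ^ m * u) * Y + (Y ^ m * u * Y - Y ^ (m + 1) * u) := by
      rw [sub_mul, mul_assoc u, ← pow_succ]
      abel
    rw [h1, hz, pow_succ']
    noncomm_ring

/-- a sum of commutators with powers of `Y` is one commutator with `Y` -/
theorem sum_comm_pow {ι : Type*} (s : Finset ι) (u : ι → S) (m : ι → ℕ) (Y : S) :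
    ∃ z, ∑ i ∈ s, (u i * Y ^ m i - Y ^ m i * u i) = z * Y - Y * z := by
  choose z hz using fun i => comm_pow (u i) Y (m i)
  refine ⟨∑ i ∈ s, z i, ?_⟩
  rw [Finset.sum_mul, Finset.mul_sum, ← Finset.sum_sub_distrib]
  exact Finset.sum_congr rfl fun i _ => hz i

/-- persistent left ideals -/
structure Good (w : S) (U : Ideal S) : Prop where
  right : ∀ x ∈ U, x * w ∈ U
  cancel : ∀ x, x * w ∈ U → x ∈ U
  one : (1 : S) ∉ U

/-- maximal persistent left ideals -/
structure Max (w : S) (U : Ideal S) : Prop extends Good w U where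
  max : ∀ V : Ideal S, Good w V → U ≤ V → V = U

theorem Good.right_pow {w : S} {U : Ideal S} (h : Good w U) (k : ℕ) :
    ∀ x ∈ U, x * w ^ k ∈ U := by
  induction k with
  | zero => intro x hx; simpa using hx
  | succ k ih =>
    intro x hx
    rw [pow_succ, ← mul_assoc]
    exact h.right _ (ih x hx)

theorem Good.cancel_pow {w : S} {U : Ideal S} (h : Good w U) (k : ℕ) :
    ∀ x, x * w ^ k ∈ U → x ∈ U := by
  induction k with
  | zero => intro x hx; simpa using hx
  | succ k ih =>
    intro x hx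
    rw [pow_succ, ← mul_assoc] at hx
    exact ih x (h.cancel _ hx)

theorem exists_max_ge {w : S} {U0 : Ideal S} (h0 : Good w U0) :
    ∃ U : Ideal S, Max w U ∧ U0 ≤ U := by
  obtain ⟨U, hle, hU⟩ := zorn_le_nonempty₀ {U : Ideal S | Good w U} (by
    intro c hc hchain y hy
    refine ⟨sSup c, ?_, fun z hz => le_sSup hz⟩
    have hne : c.Nonempty := ⟨y, hy⟩
    have hmem : ∀ x, x ∈ sSup c ↔ ∃ U ∈ c, x ∈ U := fun x =>
      Submodule.mem_sSup_of_directed hne hchain.directedOn
    refine ⟨?_, ?_, ?_⟩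
    · intro x hx
      obtain ⟨U, hU, hxU⟩ := (hmem x).1 hx
      exact (hmem _).2 ⟨U, hU, (hc hU).right x hxU⟩
    · intro x hx
      obtain ⟨U, hU, hxU⟩ := (hmem _).1 hx
      exact (hmem _).2 ⟨U, hU, (hc hU).cancel x hxU⟩
    · intro hx
      obtain ⟨U, hU, hxU⟩ := (hmem _).1 hx
      exact (hc hU).one hxU) U0 h0
  exact ⟨U, ⟨hU.1, fun V hV hUV => le_antisymm (hU.2 hV hUV) hUV⟩, hle⟩

/-- there is a maximal persistent left ideal -/
theorem exists_max {w : S} (hw : ¬ IsNilpotent w) : ∃ U : Ideal S, Max w U := by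
  let U0 : Ideal S :=
    { carrier := {x | ∃ k : ℕ, x * w ^ k = 0}
      zero_mem' := ⟨0, by simp⟩
      add_mem' := by
        rintro a b ⟨k, hk⟩ ⟨l, hl⟩
        refine ⟨k + l, ?_⟩
        rw [add_mul]
        rw [pow_add, ← mul_assoc, hk, zero_mul, zero_add, ← pow_add, add_comm k l, pow_add,
          ← mul_assoc, hl, zero_mul]
      smul_mem' := by
        rintro c x ⟨k, hk⟩
        exact ⟨k, by rw [smul_eq_mul, mul_assoc, hk, mul_zero]⟩ }
  have h0 : Good w U0 := by
    refine ⟨?_, ?_, ?_⟩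
    · rintro x ⟨k, hk⟩
      refine ⟨k, ?_⟩
      rw [mul_assoc, ← pow_succ', pow_succ, ← mul_assoc, hk, zero_mul]
    · rintro x ⟨k, hk⟩
      refine ⟨k + 1, ?_⟩
      rw [pow_succ', ← mul_assoc]
      exact hk
    · rintro ⟨k, hk⟩
      exact hw ⟨k, by simpa using hk⟩
  obtain ⟨U, hU, -⟩ := exists_max_ge h0
  exact ⟨U, hU⟩

/-- a left ideal generated over a maximal persistent one contains a power of `w` -/
theorem Max.exists_pow {w : S} {U : Ideal S} (hU : Max w U) {x : S} (hxU : x ∉ U) :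
    ∃ (k : ℕ) (s : Finset ℕ) (ρ : ℕ → S), w ^ k - ∑ i ∈ s, ρ i * (x * w ^ i) ∈ U := by
  set V : Ideal S := U ⊔ Submodule.span S (Set.range (fun i : ℕ => x * w ^ i)) with hV
  have hVw : ∀ y ∈ V, y * w ∈ V := by
    have h1 : V ≤ Submodule.comap (LinearMap.toSpanSingleton S S w) V := by
      rw [hV]
      apply sup_le
      · intro y hy
        rw [Submodule.mem_comap, LinearMap.toSpanSingleton_apply, smul_eq_mul]
        exact Submodule.mem_sup_left (hU.right y hy)
      · rw [Submodule.span_le]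
        rintro y ⟨i, rfl⟩
        rw [SetLike.mem_coe, Submodule.mem_comap, LinearMap.toSpanSingleton_apply, smul_eq_mul]
        apply Submodule.mem_sup_right
        apply Submodule.subset_span
        exact ⟨i + 1, by simp only [pow_succ, mul_assoc]⟩
    intro y hy
    have := h1 hy
    rw [Submodule.mem_comap, LinearMap.toSpanSingleton_apply, smul_eq_mul] at this
    exact this
  have hVwp : ∀ k : ℕ, ∀ y ∈ V, y * w ^ k ∈ V := by
    intro k
    induction k with
    | zero => intro y hy; simpa using hy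
    | succ k ih =>
      intro y hy
      rw [pow_succ, ← mul_assoc]
      exact hVw _ (ih y hy)
  let V' : Ideal S :=
    { carrier := {y | ∃ k : ℕ, y * w ^ k ∈ V}
      zero_mem' := ⟨0, by simp⟩
      add_mem' := by
        rintro a b ⟨k, hk⟩ ⟨l, hl⟩
        refine ⟨k + l, ?_⟩
        rw [add_mul]
        apply V.add_mem
        · rw [pow_add, ← mul_assoc]
          exact hVwp l _ hk
        · rw [add_comm k l, pow_add, ← mul_assoc]
          exact hVwp k _ hl
      smul_mem' := by
        rintro c y ⟨k, hk⟩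
        refine ⟨k, ?_⟩
        rw [smul_eq_mul, mul_assoc]
        exact V.mul_mem_left c hk }
  have hVV' : V ≤ V' := fun y hy => ⟨0, by simpa using hy⟩
  have hex : ∃ k : ℕ, w ^ k ∈ V := by
    by_contra hcon
    push Not at hcon
    have hgood : Good w V' := by
      refine ⟨?_, ?_, ?_⟩
      · rintro y ⟨k, hk⟩
        refine ⟨k, ?_⟩
        rw [mul_assoc, ← pow_succ', pow_succ, ← mul_assoc]
        exact hVw _ hk
      · rintro y ⟨k, hk⟩
        refine ⟨k + 1, ?_⟩
        rw [pow_succ', ← mul_assoc]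
        exact hk
      · rintro ⟨k, hk⟩
        exact hcon k (by simpa using hk)
    have h1 := hU.max V' hgood (le_trans le_sup_left hVV')
    apply hxU
    rw [← h1]
    apply hVV'
    apply Submodule.mem_sup_right
    apply Submodule.subset_span
    exact ⟨0, by simp⟩
  obtain ⟨k, hk⟩ := hex
  rw [hV, Submodule.mem_sup] at hk
  obtain ⟨u, hu, v, hv, huv⟩ := hk
  rw [Finsupp.mem_span_range_iff_exists_finsupp] at hv
  obtain ⟨ρ, hρ⟩ := hv
  refine ⟨k, ρ.support, ρ, ?_⟩
  rw [← huv, ← hρ, Finsupp.sum]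
  simpa only [smul_eq_mul, add_sub_cancel_right] using hu

theorem closed_one (hc : ∀ x y : S, IsNilpotent (x * y - y * x)) {w : S} {U : Ideal S}
    (hU : Max w U) {n b : S} (hn : n ∈ U) (hb : w * b ∈ U) : n * b ∈ U := by
  by_contra hcon
  obtain ⟨k, s, ρ, hρ⟩ := hU.exists_pow hcon
  set Y := w + b * w with hY
  have hYp : ∀ j : ℕ, Y ^ (j + 1) - (w ^ (j + 1) + b * w ^ (j + 1)) ∈ U := by
    intro j
    induction j with
    | zero => simp [hY]
    | succ j ih =>
      have h1 : Y ^ (j + 1 + 1) - (w ^ (j + 1 + 1) + b * w ^ (j + 1 + 1))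
          = Y * (Y ^ (j + 1) - (w ^ (j + 1) + b * w ^ (j + 1)))
            + (1 + b) * ((w * b) * w ^ (j + 1)) := by
        rw [pow_succ' Y (j + 1), pow_succ' w (j + 1), hY]
        noncomm_ring
      rw [h1]
      exact U.add_mem (U.mul_mem_left _ ih)
        (U.mul_mem_left _ (hU.toGood.right_pow _ _ hb))
  obtain ⟨z, hz⟩ := sum_comm_pow s (fun i => ρ i * n) (fun i => i + 1) Y
  set c := z * Y - Y * z with hcdef
  have hcw : w ^ (k + 1) - c ∈ U := by
    have h1 : w ^ (k + 1) - c = (w ^ k - ∑ i ∈ s, ρ i * (n * b * w ^ i)) * w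
        + ∑ i ∈ s, (ρ i * (n * b * w ^ i) * w - (ρ i * n * Y ^ (i + 1) - Y ^ (i + 1) * (ρ i * n)))
        := by
      rw [← hz, sub_mul, Finset.sum_mul, pow_succ w k]
      simp only [Finset.sum_sub_distrib]
      abel
    rw [h1]
    refine U.add_mem (hU.right _ hρ) (U.sum_mem fun i _ => ?_)
    have h2 : ρ i * (n * b * w ^ i) * w - (ρ i * n * Y ^ (i + 1) - Y ^ (i + 1) * (ρ i * n))
        = (Y ^ (i + 1) * ρ i) * n - ρ i * (n * w ^ (i + 1))
          - (ρ i * n) * (Y ^ (i + 1) - (w ^ (i + 1) + b * w ^ (i + 1))) := by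
      rw [pow_succ w i]
      noncomm_ring
    rw [h2]
    exact U.sub_mem (U.sub_mem (U.mul_mem_left _ hn)
      (U.mul_mem_left _ (hU.toGood.right_pow _ _ hn))) (U.mul_mem_left _ (hYp i))
  have hpow : ∀ a : ℕ, (w ^ (k + 1)) ^ a - c ^ a ∈ U := by
    intro a
    induction a with
    | zero => simp
    | succ a ih =>
      have h1 : (w ^ (k + 1)) ^ (a + 1) - c ^ (a + 1)
          = ((w ^ (k + 1)) ^ a - c ^ a) * w ^ (k + 1) + c ^ a * (w ^ (k + 1) - c) := by
        rw [pow_succ, pow_succ]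
        noncomm_ring
      rw [h1]
      exact U.add_mem (hU.toGood.right_pow _ _ ih) (U.mul_mem_left _ hcw)
  obtain ⟨m, hm⟩ := hc z Y
  have h3 := hpow m
  rw [hcdef, hm, sub_zero, ← pow_mul] at h3
  exact hU.one (hU.toGood.cancel_pow _ 1 (by rw [one_mul]; exact h3))

/-- `{x | x w ^ k ∈ V}` -/
def inv (w : S) (k : ℕ) (V : Ideal S) : Ideal S :=
  Submodule.comap (LinearMap.toSpanSingleton S S (w ^ k)) V

theorem mem_inv {w : S} {k : ℕ} {V : Ideal S} {x : S} : x ∈ inv w k V ↔ x * w ^ k ∈ V := by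
  rw [inv, Submodule.mem_comap, LinearMap.toSpanSingleton_apply, smul_eq_mul]

/-! ### adjoining an element on the right -/

/-- `U + U Y + U Y ^ 2 + ...` -/
def adj (U : Ideal S) (Y : S) : Ideal S :=
  ⨆ i : ℕ, Submodule.map (LinearMap.toSpanSingleton S S (Y ^ i)) U

theorem mem_adj {U : Ideal S} {Y n : S} (hn : n ∈ U) (i : ℕ) : n * Y ^ i ∈ adj U Y := by
  apply Submodule.mem_iSup_of_mem i
  rw [Submodule.mem_map]
  exact ⟨n, hn, by rw [LinearMap.toSpanSingleton_apply, smul_eq_mul]⟩

theorem adj_le {U V : Ideal S} {Y : S} (h : ∀ n ∈ U, ∀ i : ℕ, n * Y ^ i ∈ V) : adj U Y ≤ V := by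
  apply iSup_le
  intro i
  rw [Submodule.map_le_iff_le_comap]
  intro n hn
  rw [Submodule.mem_comap, LinearMap.toSpanSingleton_apply, smul_eq_mul]
  exact h n hn i

theorem adj_right {U : Ideal S} {Y t : S} (h : ∀ n ∈ U, ∀ i : ℕ, n * Y ^ i * t ∈ adj U Y) :
    ∀ x ∈ adj U Y, x * t ∈ adj U Y := by
  have h1 : adj U Y ≤ Submodule.comap (LinearMap.toSpanSingleton S S t) (adj U Y) := by
    apply adj_le
    intro n hn i
    rw [Submodule.mem_comap, LinearMap.toSpanSingleton_apply, smul_eq_mul]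
    exact h n hn i
  intro x hx
  have := h1 hx
  rwa [Submodule.mem_comap, LinearMap.toSpanSingleton_apply, smul_eq_mul] at this

theorem exists_of_mem_adj {U : Ideal S} {Y x : S} (hx : x ∈ adj U Y) :
    ∃ (s : Finset ℕ) (n : ℕ → S), (∀ i, n i ∈ U) ∧ x = ∑ i ∈ s, n i * Y ^ i := by
  rw [adj, Submodule.mem_iSup_iff_exists_finsupp] at hx
  obtain ⟨f, hf, hx⟩ := hx
  have h1 : ∀ i, ∃ n ∈ U, n * Y ^ i = f i := by
    intro i
    have := hf i
    rw [Submodule.mem_map] at this
    obtain ⟨n, hn, h2⟩ := this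
    rw [LinearMap.toSpanSingleton_apply, smul_eq_mul] at h2
    exact ⟨n, hn, h2⟩
  choose n hn h2 using h1
  refine ⟨f.support, n, hn, ?_⟩
  rw [← hx, Finsupp.sum]
  exact Finset.sum_congr rfl fun i _ => (h2 i).symm

/-- powers of `w` are not in `U + U Y + U Y ^ 2 + ...` -/
theorem pow_notMem_adj (hc : ∀ x y : S, IsNilpotent (x * y - y * x)) {w : S} {U : Ideal S}
    (hU : Good w U) (Y : S) (k : ℕ) : w ^ k ∉ adj U Y := by
  intro hk
  obtain ⟨s, n, hn, h1⟩ := exists_of_mem_adj hk
  obtain ⟨z, hz⟩ := sum_comm_pow s n (fun i => i) Y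
  set c := z * Y - Y * z with hcdef
  have hcw : w ^ k - c ∈ U := by
    have h2 : w ^ k - c = ∑ i ∈ s, Y ^ i * n i := by
      rw [← hz, h1, Finset.sum_sub_distrib]
      abel
    rw [h2]
    exact U.sum_mem fun i _ => U.mul_mem_left _ (hn i)
  have hpow : ∀ a : ℕ, (w ^ k) ^ a - c ^ a ∈ U := by
    intro a
    induction a with
    | zero => simp
    | succ a ih =>
      have h1 : (w ^ k) ^ (a + 1) - c ^ (a + 1)
          = ((w ^ k) ^ a - c ^ a) * w ^ k + c ^ a * (w ^ k - c) := by
        rw [pow_succ, pow_succ]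
        noncomm_ring
      rw [h1]
      exact U.add_mem (hU.right_pow _ _ ih) (U.mul_mem_left _ hcw)
  obtain ⟨m, hm⟩ := hc z Y
  have h3 := hpow m
  rw [hcdef, hm, sub_zero, ← pow_mul] at h3
  exact hU.one (hU.cancel_pow _ 1 (by rw [one_mul]; exact h3))

/-- if `U + U Y + U Y ^ 2 + ...` is closed under right multiplication by `w` then `U Y ⊆ U` -/
theorem closed_adj (hc : ∀ x y : S, IsNilpotent (x * y - y * x)) {w : S} {U : Ideal S}
    (hU : Max w U) {Y : S} (hY : ∀ x ∈ adj U Y, x * w ∈ adj U Y) {n : S} (hn : n ∈ U) :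
    n * Y ∈ U := by
  have hYp : ∀ k : ℕ, ∀ x ∈ adj U Y, x * w ^ k ∈ adj U Y := by
    intro k
    induction k with
    | zero => intro x hx; simpa using hx
    | succ k ih =>
      intro x hx
      rw [pow_succ, ← mul_assoc]
      exact hY _ (ih x hx)
  let V' : Ideal S :=
    { carrier := {y | ∃ k : ℕ, y * w ^ k ∈ adj U Y}
      zero_mem' := ⟨0, by simp⟩
      add_mem' := by
        rintro a b ⟨k, hk⟩ ⟨l, hl⟩
        refine ⟨k + l, ?_⟩
        rw [add_mul]
        apply (adj U Y).add_mem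
        · rw [pow_add, ← mul_assoc]
          exact hYp l _ hk
        · rw [add_comm k l, pow_add, ← mul_assoc]
          exact hYp k _ hl
      smul_mem' := by
        rintro c y ⟨k, hk⟩
        refine ⟨k, ?_⟩
        rw [smul_eq_mul, mul_assoc]
        exact (adj U Y).mul_mem_left c hk }
  have hle : adj U Y ≤ V' := fun y hy => ⟨0, by simpa using hy⟩
  have hUle : U ≤ V' := by
    intro y hy
    apply hle
    have := mem_adj (Y := Y) hy 0
    simpa using this
  have hgood : Good w V' := by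
    refine ⟨?_, ?_, ?_⟩
    · rintro y ⟨k, hk⟩
      refine ⟨k, ?_⟩
      rw [mul_assoc, ← pow_succ', pow_succ, ← mul_assoc]
      exact hY _ hk
    · rintro y ⟨k, hk⟩
      refine ⟨k + 1, ?_⟩
      rw [pow_succ', ← mul_assoc]
      exact hk
    · rintro ⟨k, hk⟩
      exact pow_notMem_adj hc hU.toGood Y k (by simpa using hk)
  rw [← hU.max V' hgood hUle]
  apply hle
  have := mem_adj (Y := Y) hn 1
  simpa using this

/-- the elements commuting with `w` modulo `U` normalise `U` -/
theorem closed_comm (hc : ∀ x y : S, IsNilpotent (x * y - y * x)) {w : S} {U : Ideal S}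
    (hU : Max w U) {b : S} (hb : w * b - b * w ∈ U) {n : S} (hn : n ∈ U) : n * b ∈ U := by
  refine closed_adj hc hU ?_ hn
  have hU0 : U ≤ adj U b := by
    intro x hx
    have := mem_adj (Y := b) hx 0
    simpa using this
  have hbb : ∀ x ∈ adj U b, x * b ∈ adj U b := by
    apply adj_right
    intro m hm i
    rw [mul_assoc, ← pow_succ]
    exact mem_adj hm _
  apply adj_right
  intro m hm i
  induction i with
  | zero => simpa using hU0 (hU.right m hm)
  | succ i ih =>
    have h1 : m * b ^ (i + 1) * w = m * b ^ i * w * b - m * b ^ i * (w * b - b * w) := by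
      rw [pow_succ]
      noncomm_ring
    rw [h1]
    exact (adj U b).sub_mem (hbb _ ih) (hU0 (U.mul_mem_left _ hb))

/-- products -/
theorem comm_mul (hc : ∀ x y : S, IsNilpotent (x * y - y * x)) {w : S} {U : Ideal S}
    (hU : Max w U) {a b : S} (ha : w * a - a * w ∈ U) (hb : w * b - b * w ∈ U) :
    w * (a * b) - a * b * w ∈ U := by
  have h1 : w * (a * b) - a * b * w = (w * a - a * w) * b + a * (w * b - b * w) := by
    noncomm_ring
  rw [h1]
  exact U.add_mem (closed_comm hc hU hb ha) (U.mul_mem_left _ hb)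

/-- no zero divisors modulo `U` -/
theorem comm_domain (hc : ∀ x y : S, IsNilpotent (x * y - y * x)) {w : S} {U : Ideal S}
    (hU : Max w U) {x b : S} (hb : w * b - b * w ∈ U) (h : x * b ∈ U) : x ∈ U ∨ b ∈ U := by
  by_contra hcon
  push Not at hcon
  obtain ⟨hx, hbU⟩ := hcon
  have hgood : Good w (inv b 1 U) := by
    refine ⟨?_, ?_, ?_⟩
    · intro y hy
      rw [mem_inv, pow_one] at hy ⊢
      have h1 : y * w * b = y * b * w + y * (w * b - b * w) := by noncomm_ring
      rw [h1]
      exact U.add_mem (hU.right _ hy) (U.mul_mem_left _ hb)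
    · intro y hy
      rw [mem_inv, pow_one] at hy ⊢
      apply hU.cancel
      have h1 : y * b * w = y * w * b - y * (w * b - b * w) := by noncomm_ring
      rw [h1]
      exact U.sub_mem hy (U.mul_mem_left _ hb)
    · intro h1
      rw [mem_inv, pow_one, one_mul] at h1
      exact hbU h1
  have hle : U ≤ inv b 1 U := by
    intro y hy
    rw [mem_inv, pow_one]
    exact closed_comm hc hU hb hy
  apply hx
  rw [← hU.max _ hgood hle, mem_inv, pow_one]
  exact h

/-- commutativity modulo `U` -/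
theorem comm_comm (hc : ∀ x y : S, IsNilpotent (x * y - y * x)) {w : S} {U : Ideal S}
    (hU : Max w U) {a b : S} (ha : w * a - a * w ∈ U) (hb : w * b - b * w ∈ U) :
    a * b - b * a ∈ U := by
  have h1 : w * (a * b - b * a) - (a * b - b * a) * w ∈ U := by
    have h2 : w * (a * b - b * a) - (a * b - b * a) * w
        = (w * (a * b) - a * b * w) - (w * (b * a) - b * a * w) := by noncomm_ring
    rw [h2]
    exact U.sub_mem (comm_mul hc hU ha hb) (comm_mul hc hU hb ha)
  have h3 : ∀ m : ℕ, (a * b - b * a) ^ m ∈ U → a * b - b * a ∈ U := by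
    intro m
    induction m with
    | zero =>
      intro h
      rw [pow_zero] at h
      exact absurd h hU.one
    | succ m ih =>
      intro h
      rw [pow_succ] at h
      rcases comm_domain hc hU h1 h with h4 | h4
      · exact ih h4
      · exact h4
  obtain ⟨m, hm⟩ := hc a b
  exact h3 m (by rw [hm]; exact U.zero_mem)

/-- a maximal persistent left ideal for `w` is one for every power of `w` -/
theorem max_pow (hc : ∀ x y : S, IsNilpotent (x * y - y * x)) {w : S} {U : Ideal S}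
    (hU : Max w U) {m : ℕ} (hm : 1 ≤ m) : Max (w ^ m) U := by
  refine ⟨⟨fun x hx => hU.toGood.right_pow m x hx, fun x hx => hU.toGood.cancel_pow m x hx,
    hU.one⟩, ?_⟩
  intro V hV hle
  obtain ⟨V', hV', hVV'⟩ := exists_max_ge hV
  have hcomm : w ^ m * w - w * w ^ m ∈ V' := by
    rw [← pow_succ, ← pow_succ', sub_self]
    exact V'.zero_mem
  have hwV : w ∉ V' := by
    intro h
    apply hV'.one
    apply hV'.cancel
    obtain ⟨m', rfl⟩ : ∃ m', m = m' + 1 := ⟨m - 1, by omega⟩
    rw [one_mul, pow_succ]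
    exact V'.mul_mem_left _ h
  have hgood : Good w V' := by
    refine ⟨fun x hx => closed_comm hc hV' hcomm hx, ?_, hV'.one⟩
    intro x hx
    exact (comm_domain hc hV' hcomm hx).resolve_right hwV
  have h1 : V' = U := hU.max V' hgood (hle.trans hVV')
  exact le_antisymm (h1 ▸ hVV') hle

theorem closed_pow (hc : ∀ x y : S, IsNilpotent (x * y - y * x)) {w : S} {U : Ideal S}
    (hU : Max w U) (m : ℕ) {n b : S} (hn : n ∈ U) (hb : w ^ m * b ∈ U) : n * b ∈ U := by
  rcases Nat.eq_zero_or_pos m with rfl | hm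
  · rw [pow_zero, one_mul] at hb
    exact U.mul_mem_left _ hb
  · exact closed_one hc (max_pow hc hU hm) hn hb

/-- elements commuting with a power of `w` modulo `U` commute with `w` modulo `U` -/
theorem comm_of_pow (hc : ∀ x y : S, IsNilpotent (x * y - y * x)) {w : S} {U : Ideal S}
    (hU : Max w U) {m : ℕ} (hm : 1 ≤ m) {b : S} (hb : w ^ m * b - b * w ^ m ∈ U) :
    w * b - b * w ∈ U := by
  have h1 : w ^ m * w - w * w ^ m ∈ U := by
    rw [← pow_succ, ← pow_succ', sub_self]
    exact U.zero_mem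
  exact comm_comm hc (max_pow hc hU hm) h1 hb

end unital

section nonunital

open Unitization

variable {R : Type*} [NonUnitalRing R]

/-- the theorem for rings without identity -/
theorem exists_closed (hc : ∀ x y : R, Nilp (x * y - y * x)) {w : R} (hw : ¬ Nilp w) :
    ∃ U : AddSubgroup R, (∀ r : R, ∀ x ∈ U, r * x ∈ U) ∧ (∀ x : R, x * w ∈ U ↔ x ∈ U) ∧
      (∀ (Y : R) (s : Finset ℕ) (n : ℕ → R), (∀ i, n i ∈ U) →
        ∀ k : ℕ, pow1 w k - ∑ i ∈ s, n i * pow1 Y i ∉ U) ∧
      (∀ (b : R) (m : ℕ), pow1 w m * b ∈ U → ∀ n ∈ U, n * b ∈ U) ∧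
      (∀ (b : R) (m : ℕ), pow1 w m * b - b * pow1 w m ∈ U →
        w * b - b * w ∈ U ∧ ∀ n ∈ U, n * b ∈ U) ∧
      ∀ a b : R, w * a - a * w ∈ U → w * b - b * w ∈ U →
        a * b - b * a ∈ U ∧ (a * b ∈ U → a ∈ U ∨ b ∈ U) := by
  have hc' : ∀ x y : Unitization ℤ R, IsNilpotent (x * y - y * x) := by
    intro x y
    rw [comm_eq]
    exact (nilp_iff _).1 (hc _ _)
  obtain ⟨V, hV⟩ := exists_max (S := Unitization ℤ R) (w := inr w) (fun h => hw ((nilp_iff _).2 h))
  let U : AddSubgroup R := V.toAddSubgroup.comap (inrNonUnitalAlgHom ℤ R : R →+ Unitization ℤ R)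
  have hmem : ∀ x : R, x ∈ U ↔ (inr x : Unitization ℤ R) ∈ V := fun x => Iff.rfl
  refine ⟨U, ?_, ?_, ?_, ?_, ?_, ?_⟩
  · intro r x hx
    rw [hmem] at hx ⊢
    rw [inr_mul]
    exact V.mul_mem_left _ hx
  · intro x
    rw [hmem, hmem, inr_mul]
    exact ⟨hV.cancel _, hV.right _⟩
  · intro Y s n hn k hk
    rw [hmem] at hk
    have h1 : (inr (∑ i ∈ s, n i * pow1 Y i) : Unitization ℤ R) ∈ adj V (inr Y) := by
      have h2 : (inr (∑ i ∈ s, n i * pow1 Y i) : Unitization ℤ R)
          = ∑ i ∈ s, inr (n i) * (inr Y) ^ (i + 1) := by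
        rw [← inrNonUnitalAlgHom_toFun]
        exact (map_sum (inrNonUnitalAlgHom ℤ R) _ _).trans
          (Finset.sum_congr rfl fun i _ => by
            show (inr (n i * pow1 Y i) : Unitization ℤ R) = _
            rw [inr_mul, inr_pow1])
      rw [h2]
      exact (adj V (inr Y)).sum_mem fun i _ => mem_adj ((hmem _).1 (hn i)) _
    have h3 : (inr (pow1 w k) : Unitization ℤ R) ∈ adj V (inr Y) := by
      have h4 : (inr (pow1 w k) : Unitization ℤ R)
          = inr (pow1 w k - ∑ i ∈ s, n i * pow1 Y i) + inr (∑ i ∈ s, n i * pow1 Y i) := by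
        rw [← inr_add, sub_add_cancel]
      rw [h4]
      refine (adj V (inr Y)).add_mem ?_ h1
      have := mem_adj (Y := (inr Y : Unitization ℤ R)) hk 0
      simpa using this
    rw [inr_pow1] at h3
    exact pow_notMem_adj hc' hV.toGood _ _ h3
  · intro b m hb n hn
    rw [hmem] at hb hn ⊢
    rw [inr_mul, inr_pow1] at hb
    rw [inr_mul]
    exact closed_pow hc' hV (m + 1) hn hb
  · intro b m hb
    have hb' : w * b - b * w ∈ U := by
      rw [hmem, inr_sub, inr_mul, inr_mul, inr_pow1] at hb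
      rw [hmem, inr_sub, inr_mul, inr_mul]
      exact comm_of_pow hc' hV (Nat.succ_pos m) hb
    refine ⟨hb', ?_⟩
    intro n hn
    rw [hmem] at hb' hn ⊢
    rw [inr_sub, inr_mul, inr_mul] at hb'
    rw [inr_mul]
    exact closed_comm hc' hV hb' hn
  · intro a b ha hb
    simp only [hmem, inr_sub, inr_mul] at ha hb ⊢
    exact ⟨comm_comm hc' hV ha hb, comm_domain hc' hV hb⟩

end nonunital

end Pool.Agent.HComm
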