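import Pool.Agent.HComm.Frob

/-!
# Rings without nil ideals whose commutators are nilpotent: the core

`NilR c`: the right ideal `c S` is nil.
-/

namespace Pool.Agent.HComm

/-- the right ideal `c S` is nil -/
def NilR {S : Type*} [Ring S] (c : S) : Prop := ∀ r : S, IsNilpotent (c * r)

section

variable {S : Type*} [Ring S]

theorem isNilpotent_swap {a b : S} (h : IsNilpotent (a * b)) : IsNilpotent (b * a) := by
  obtain ⟨n, hn⟩ := h
  refine ⟨n + 1, ?_⟩
  rw [pow_succ', mul_assoc, ← mul_pow_mul a b n, hn, zero_mul, mul_zero]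

theorem NilR.nil {c : S} (h : NilR c) : IsNilpotent c := by
  have := h 1
  rwa [mul_one] at this

theorem NilR.mul_right {c : S} (h : NilR c) (s : S) : NilR (c * s) := by
  intro r
  rw [mul_assoc]
  exact h _

theorem NilR.mul_left {c : S} (h : NilR c) (s : S) : NilR (s * c) := by
  intro r
  rw [mul_assoc]
  apply isNilpotent_swap
  rw [mul_assoc]
  exact h _

theorem NilR.neg {c : S} (h : NilR c) : NilR (-c) := by
  intro r
  rw [neg_mul]
  exact (h r).neg

/-- square zero elements generate nil right ideals -/
theorem nilR_of_sq (hC : ∀ x y : S, IsNilpotent (x * y - y * x)) {a : S} (ha : a * a = 0) :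
    NilR a := by
  intro r
  obtain ⟨n, hn⟩ := hC a r
  have h : ∀ k, (a * r - r * a) ^ k * a = (a * r) ^ k * a := by
    intro k
    induction k with
    | zero => simp
    | succ k ih =>
      have e1 : (a * r - r * a) ^ (k + 1) * a = (a * r - r * a) ^ k * a * r * a := by
        rw [pow_succ, mul_assoc, sub_mul, mul_assoc r a a, ha, mul_zero, sub_zero]
        simp only [mul_assoc]
      rw [e1, ih, pow_succ]
      simp only [mul_assoc]
  refine ⟨n + 1, ?_⟩
  rw [pow_succ, ← mul_assoc, ← h, hn, zero_mul, zero_mul]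

/-- The core: if nilpotent plus element of a nil right ideal is always nilpotent, the ring is
commutative. -/
theorem core (hno : ∀ I : TwoSidedIdeal S, (∀ x ∈ I, IsNilpotent x) → ∀ x ∈ I, x = 0)
    (hC : ∀ x y : S, IsNilpotent (x * y - y * x))
    (hK : ∀ b c : S, IsNilpotent b → NilR c → IsNilpotent (b + c)) (x y : S) : x * y = y * x := by
  -- sums of elements of nil right ideals
  have h1 : ∀ z ∈ AddSubgroup.closure {c : S | NilR c}, ∀ b, IsNilpotent b →
      IsNilpotent (b + z) := by
    intro z hz
    induction hz using AddSubgroup.closure_induction with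
    | mem c hc => exact fun b hb => hK b c hb hc
    | zero =>
      intro b hb
      rw [add_zero]
      exact hb
    | add u v _ _ hu hv =>
      intro b hb
      rw [← add_assoc]
      exact hv _ (hu _ hb)
    | neg u _ hu =>
      intro b hb
      have h := (hu (-b) hb.neg).neg
      have e : -(-b + u) = b + -u := by abel
      rwa [e] at h
  have h2 : ∀ a : S, NilR a → a = 0 := by
    intro a ha
    refine hno (TwoSidedIdeal.span {a}) ?_ a (TwoSidedIdeal.subset_span rfl)
    intro z hz
    rw [TwoSidedIdeal.mem_span_iff_mem_addSubgroup_closure] at hz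
    have h3 : z ∈ AddSubgroup.closure {c : S | NilR c} := by
      refine AddSubgroup.closure_mono ?_ hz
      rintro _ ⟨_, ⟨r, -, a', ha', rfl⟩, s, -, rfl⟩
      rw [Set.mem_singleton_iff] at ha'
      subst ha'
      exact (ha.mul_left r).mul_right s
    have h4 := h1 z h3 0 IsNilpotent.zero
    rwa [zero_add] at h4
  have hred : IsReduced S := by
    rw [isReduced_iff_pow_one_lt 2 (by norm_num)]
    intro a ha
    rw [pow_two] at ha
    exact h2 a (nilR_of_sq hC ha)
  exact sub_eq_zero.1 (hC x y).eq_zero

/-- Variant B: it suffices that commutator plus element of a nil right ideal is nilpotent. -/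
theorem coreB (hno : ∀ I : TwoSidedIdeal S, (∀ x ∈ I, IsNilpotent x) → ∀ x ∈ I, x = 0)
    (h : ∀ x y c : S, NilR c → IsNilpotent (x * y - y * x + c)) (x y : S) : x * y = y * x := by
  refine core hno ?_ ?_ x y
  · intro x y
    have h0 : NilR (0 : S) := by
      intro r
      rw [zero_mul]
      exact IsNilpotent.zero
    have := h x y 0 h0
    rwa [add_zero] at this
  · intro b c hb hc
    obtain ⟨m, hm⟩ := hb
    have key : ∀ k, ∃ g u, (b + c) ^ k - b ^ k = ((b + c) * g - g * (b + c)) + c * u := by
      intro k
      induction k with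
      | zero => exact ⟨0, 0, by simp⟩
      | succ k ih =>
        obtain ⟨g, u, e⟩ := ih
        refine ⟨(b + c) * g + c * u, u * (b + c) + b ^ k, ?_⟩
        have e1 : (b + c) ^ (k + 1) - b ^ (k + 1) =
            (b + c) * ((b + c) ^ k - b ^ k) + c * b ^ k := by
          rw [pow_succ', pow_succ' b]
          noncomm_ring
        rw [e1, e]
        noncomm_ring
    obtain ⟨g, u, e⟩ := key m
    rw [hm, sub_zero] at e
    obtain ⟨n, hn⟩ := h (b + c) g (c * u) (hc.mul_right u)
    rw [← e, ← pow_mul] at hn
    exact ⟨m * n, hn⟩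

/-- Variant A: in characteristic `p` it suffices that `[b, f] + [c, g]` is nilpotent for `b`
nilpotent and `c` in a nil right ideal. -/
theorem coreA {p : ℕ} (hp : p.Prime) (h0 : (p : S) = 0)
    (hno : ∀ I : TwoSidedIdeal S, (∀ x ∈ I, IsNilpotent x) → ∀ x ∈ I, x = 0)
    (hC : ∀ x y : S, IsNilpotent (x * y - y * x))
    (h : ∀ b f c g : S, IsNilpotent b → NilR c →
      IsNilpotent ((b * f - f * b) + (c * g - g * c))) (x y : S) : x * y = y * x := by
  refine core hno hC ?_ x y
  intro b c hb hc
  obtain ⟨e, f, g, hefg⟩ := exists_pow_eq hp h0 hb hc.nil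
  obtain ⟨n, hn⟩ := h b f c g hb hc
  rw [← hefg, ← pow_mul] at hn
  exact ⟨p ^ e * n, hn⟩

end

end Pool.Agent.HComm
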