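import Mathlib

/-!
# The Frobenius map modulo commutators

`A` is a ring in which the prime number `p` is zero and `D A` is the additive subgroup generated by
the commutators.  Then `(x + y) ^ p` is congruent to `x ^ p + y ^ p` modulo `D A`, and `D A` is
stable under `d ↦ d ^ p`.

For two elements `b, c` of a ring `S` with `p = 0` it follows that, if `b` and `c` are nilpotent,
some power `(b + c) ^ (p ^ e)` is of the form `(b f - f b) + (c g - g c)`.
-/

open Polynomial

namespace Pool.Agent.HComm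

/-- the additive subgroup generated by the commutators -/
def D (A : Type*) [Ring A] : AddSubgroup A :=
  AddSubgroup.closure {x | ∃ u v : A, x = u * v - v * u}

theorem comm_mem_D {A : Type*} [Ring A] (u v : A) : u * v - v * u ∈ D A :=
  AddSubgroup.subset_closure ⟨u, v, rfl⟩

section Poly

variable {A : Type*} [Ring A]

/-- the polynomials whose coefficients are in `D A` -/
def DP (A : Type*) [Ring A] : AddSubgroup A[X] where
  carrier := {f | ∀ n, f.coeff n ∈ D A}
  add_mem' := by
    intro f g hf hg n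
    rw [coeff_add]
    exact (D A).add_mem (hf n) (hg n)
  zero_mem' := by
    intro n
    rw [coeff_zero]
    exact (D A).zero_mem
  neg_mem' := by
    intro f hf n
    rw [coeff_neg]
    exact (D A).neg_mem (hf n)

theorem mem_DP {f : A[X]} : f ∈ DP A ↔ ∀ n, f.coeff n ∈ D A := Iff.rfl

theorem comm_mem_DP (f g : A[X]) : f * g - g * f ∈ DP A := by
  intro n
  have h1 : (g * f).coeff n =
      ∑ x ∈ Finset.HasAntidiagonal.antidiagonal n, g.coeff x.2 * f.coeff x.1 := by
    rw [coeff_mul]
    exact Finset.Nat.sum_antidiagonal_swap (n := n) (f := fun x => g.coeff x.2 * f.coeff x.1)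
  rw [coeff_sub, h1, coeff_mul, ← Finset.sum_sub_distrib]
  exact (D A).sum_mem fun x _ => comm_mem_D _ _

theorem deriv_pow_mem (z : A[X]) (k j : ℕ) :
    derivative (z ^ (k + 1)) * z ^ j - (k + 1) • (derivative z * z ^ (k + j)) ∈ DP A := by
  induction k generalizing j with
  | zero => simp
  | succ k ih =>
    have h1 := ih (j + 1)
    have h2 := comm_mem_DP (z ^ (k + 1)) (derivative z * z ^ j)
    have h3 := (DP A).add_mem h1 h2
    have e1 : derivative (z ^ (k + 1 + 1)) * z ^ j =
        derivative (z ^ (k + 1)) * z ^ (j + 1) + z ^ (k + 1) * (derivative z * z ^ j) := by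
      rw [pow_succ z (k + 1), derivative_mul, add_mul, pow_succ' z j]
      simp only [mul_assoc]
    have e2 : derivative z * z ^ j * z ^ (k + 1) = derivative z * z ^ (k + 1 + j) := by
      rw [mul_assoc, ← pow_add, add_comm j]
    have e3 : derivative z * z ^ (k + (j + 1)) = derivative z * z ^ (k + 1 + j) := by
      rw [show k + (j + 1) = k + 1 + j by ring]
    rw [e1, add_smul, one_smul]
    rw [e2, e3] at h3
    have e4 : derivative (z ^ (k + 1)) * z ^ (j + 1) + z ^ (k + 1) * (derivative z * z ^ j) -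
        ((k + 1) • (derivative z * z ^ (k + 1 + j)) + derivative z * z ^ (k + 1 + j)) =
        derivative (z ^ (k + 1)) * z ^ (j + 1) - (k + 1) • (derivative z * z ^ (k + 1 + j)) +
        (z ^ (k + 1) * (derivative z * z ^ j) - derivative z * z ^ (k + 1 + j)) := by abel
    rw [e4]
    exact h3

end Poly

section Frobenius

variable {A : Type*} [Ring A] {p : ℕ}

theorem mem_of_nsmul (hp : p.Prime) (h0 : (p : A) = 0) {m : ℕ} (h1 : 0 < m) (h2 : m < p) {a : A}
    (h : m • a ∈ D A) : a ∈ D A := by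
  have hc : Nat.Coprime m p := by
    rw [Nat.coprime_comm, hp.coprime_iff_not_dvd]
    intro h3
    exact absurd (Nat.le_of_dvd h1 h3) (by omega)
  obtain ⟨u, v, huv⟩ : ∃ u v : ℤ, (m : ℤ) * u + p * v = 1 := by
    refine ⟨Nat.gcdA m p, Nat.gcdB m p, ?_⟩
    have := Nat.gcd_eq_gcd_ab m p
    rw [hc.gcd_eq_one] at this
    exact_mod_cast this.symm
  have h3 : u • (m • a) = a := by
    have e1 : a = ((m : ℤ) * u + p * v) • a := by rw [huv, one_smul]
    have e2 : ((p : ℤ) * v) • a = 0 := by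
      rw [mul_comm, mul_smul, zsmul_eq_mul, zsmul_eq_mul, Int.cast_natCast, h0, zero_mul, mul_zero]
    conv_rhs => rw [e1]
    rw [add_smul, e2, add_zero, mul_comm, mul_smul, natCast_zsmul]
  rw [← h3]
  exact (D A).zsmul_mem h u

theorem frob_add (hp : p.Prime) (h0 : (p : A) = 0) (x y : A) :
    (x + y) ^ p - x ^ p - y ^ p ∈ D A := by
  obtain ⟨z, hz⟩ : ∃ z : A[X], z = C y * X + C x := ⟨_, rfl⟩
  have hdeg : z.natDegree ≤ 1 := by
    rw [hz]
    exact natDegree_linear_le
  have hd : derivative (z ^ p) ∈ DP A := by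
    have h1 := deriv_pow_mem z (p - 1) 0
    rw [Nat.sub_add_cancel hp.one_le] at h1
    have e1 : (p • (derivative z * z ^ (p - 1 + 0)) : A[X]) = 0 := by
      rw [nsmul_eq_mul]
      have : ((p : ℕ) : A[X]) = 0 := by
        rw [← C_eq_natCast, h0, C_0]
      rw [this, zero_mul]
    rw [e1, sub_zero, pow_zero, mul_one] at h1
    exact h1
  have hmid : ∀ m, 0 < m → m < p → (z ^ p).coeff m ∈ D A := by
    intro m h1 h2
    refine mem_of_nsmul hp h0 h1 h2 ?_
    have h3 := hd (m - 1)
    rw [coeff_derivative] at h3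
    have e1 : m - 1 + 1 = m := Nat.sub_add_cancel h1
    have e2 : ((m - 1 : ℕ) : A) + 1 = (m : A) := by
      exact_mod_cast congrArg (Nat.cast : ℕ → A) e1
    rw [e1, e2] at h3
    rw [nsmul_eq_mul, Nat.cast_comm]
    exact h3
  have hz0 : (z ^ p).coeff 0 = x ^ p := by
    have h1 : constantCoeff (z ^ p) = (constantCoeff z) ^ p := map_pow _ _ _
    have h2 : constantCoeff z = x := by
      rw [hz, constantCoeff_apply]
      simp
    rw [h2] at h1
    exact h1
  have hzp : (z ^ p).coeff p = y ^ p := by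
    have h1 := coeff_pow_of_natDegree_le (m := p) hdeg
    rw [mul_one] at h1
    rw [h1, hz]
    simp
  have hsum : (x + y) ^ p = ∑ m ∈ Finset.range (p + 1), (z ^ p).coeff m := by
    obtain ⟨φ, hφ⟩ : ∃ φ : A[X] →+* A, φ = eval₂RingHom' (RingHom.id A) 1
      (fun a => Commute.one_right a) := ⟨_, rfl⟩
    have hφe : ∀ f, φ f = eval₂ (RingHom.id A) 1 f := by
      intro f
      rw [hφ]
      rfl
    have h1 : φ z = x + y := by
      rw [hφe, hz]
      simp [eval₂_add, add_comm]
    have h2 : φ (z ^ p) = (x + y) ^ p := by rw [map_pow, h1]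
    have h3 : (z ^ p).natDegree < p + 1 := by
      have h4 : (z ^ p).natDegree ≤ p * z.natDegree := natDegree_pow_le
      have h5 : p * z.natDegree ≤ p * 1 := Nat.mul_le_mul_left _ hdeg
      omega
    rw [← h2, hφe, eval₂_eq_sum_range' _ h3]
    refine Finset.sum_congr rfl fun m _ => ?_
    rw [one_pow, mul_one, RingHom.id_apply]
  have hp0 := hp.pos
  rw [hsum, Finset.sum_range_succ, hzp, Finset.range_eq_Ico, Finset.sum_eq_sum_Ico_succ_bot hp0,
    hz0]
  have e1 : x ^ p + ∑ k ∈ Finset.Ico (0 + 1) p, (z ^ p).coeff k + y ^ p - x ^ p - y ^ p =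
      ∑ k ∈ Finset.Ico (0 + 1) p, (z ^ p).coeff k := by abel
  rw [e1]
  refine (D A).sum_mem fun m hm => ?_
  rw [Finset.mem_Ico] at hm
  exact hmid m (by omega) hm.2

theorem frob_neg (hp : p.Prime) (h0 : (p : A) = 0) (x : A) : (-x) ^ p + x ^ p ∈ D A := by
  have h := frob_add hp h0 x (-x)
  rw [add_neg_cancel, zero_pow hp.ne_zero] at h
  have e : (-x) ^ p + x ^ p = -(0 - x ^ p - (-x) ^ p) := by abel
  rw [e]
  exact (D A).neg_mem h

theorem frob_D (hp : p.Prime) (h0 : (p : A) = 0) {d : A} (hd : d ∈ D A) : d ^ p ∈ D A := by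
  unfold D at hd
  induction hd using AddSubgroup.closure_induction with
  | mem x hx =>
    obtain ⟨u, v, rfl⟩ := hx
    have h1 := frob_add hp h0 (u * v) (-(v * u))
    have h2 := frob_neg hp h0 (v * u)
    obtain ⟨k, hk⟩ : ∃ k, p = k + 1 := ⟨p - 1, (Nat.sub_add_cancel hp.one_le).symm⟩
    have h3 : (u * v) ^ p - (v * u) ^ p ∈ D A := by
      have e1 : (u * v) ^ p = u * (v * (u * v) ^ k) := by
        rw [hk, pow_succ', mul_assoc]
      have e2 : (v * u) ^ p = v * (u * v) ^ k * u := by
        rw [hk, pow_succ', mul_assoc v, mul_assoc v]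
        congr 1
        exact (mul_pow_mul u v k).symm
      rw [e1, e2]
      exact comm_mem_D u (v * (u * v) ^ k)
    have e : (u * v - v * u) ^ p = ((u * v + -(v * u)) ^ p - (u * v) ^ p - (-(v * u)) ^ p) +
        ((-(v * u)) ^ p + (v * u) ^ p) + ((u * v) ^ p - (v * u) ^ p) := by
      rw [sub_eq_add_neg]
      abel
    rw [e]
    exact (D A).add_mem ((D A).add_mem h1 h2) h3
  | zero =>
    rw [zero_pow hp.ne_zero]
    exact (D A).zero_mem
  | add x y hx hy ihx ihy =>
    have h1 := frob_add hp h0 x y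
    have e : (x + y) ^ p = ((x + y) ^ p - x ^ p - y ^ p) + (x ^ p + y ^ p) := by abel
    rw [e]
    exact (D A).add_mem h1 ((D A).add_mem ihx ihy)
  | neg x hx ih =>
    have h1 := frob_neg hp h0 x
    have e : (-x) ^ p = ((-x) ^ p + x ^ p) + -(x ^ p) := by abel
    rw [e]
    exact (D A).add_mem h1 ((D A).neg_mem ih)

theorem frob_iter (hp : p.Prime) (h0 : (p : A) = 0) (x y : A) (e : ℕ) :
    (x + y) ^ p ^ e - x ^ p ^ e - y ^ p ^ e ∈ D A := by
  induction e with
  | zero =>
    rw [pow_zero, pow_one, pow_one, pow_one]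
    have : x + y - x - y = 0 := by abel
    rw [this]
    exact (D A).zero_mem
  | succ e ih =>
    obtain ⟨X, hX⟩ : ∃ X, X = (x + y) ^ p ^ e := ⟨_, rfl⟩
    obtain ⟨X1, hX1⟩ : ∃ X1, X1 = x ^ p ^ e := ⟨_, rfl⟩
    obtain ⟨Y1, hY1⟩ : ∃ Y1, Y1 = y ^ p ^ e := ⟨_, rfl⟩
    rw [← hX, ← hX1, ← hY1] at ih
    have h1 := frob_add hp h0 (X1 + Y1) (X - X1 - Y1)
    have h2 := frob_add hp h0 X1 Y1
    have h3 := frob_D hp h0 ih
    have e1 : X1 + Y1 + (X - X1 - Y1) = X := by abel
    rw [e1] at h1
    rw [pow_succ, pow_mul, pow_mul, pow_mul, ← hX, ← hX1, ← hY1]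
    have e2 : X ^ p - X1 ^ p - Y1 ^ p = (X ^ p - (X1 + Y1) ^ p - (X - X1 - Y1) ^ p) +
        ((X1 + Y1) ^ p - X1 ^ p - Y1 ^ p) + (X - X1 - Y1) ^ p := by abel
    rw [e2]
    exact (D A).add_mem ((D A).add_mem h1 h2) h3

end Frobenius

/-- the elements `(b f - f b) + (c g - g c)` -/
def L {S : Type*} [Ring S] (b c : S) : AddSubgroup S where
  carrier := {x | ∃ f g, x = (b * f - f * b) + (c * g - g * c)}
  add_mem' := by
    rintro _ _ ⟨f, g, rfl⟩ ⟨f', g', rfl⟩
    refine ⟨f + f', g + g', ?_⟩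
    noncomm_ring
  zero_mem' := ⟨0, 0, by simp⟩
  neg_mem' := by
    rintro _ ⟨f, g, rfl⟩
    refine ⟨-f, -g, ?_⟩
    noncomm_ring

theorem mem_L {S : Type*} [Ring S] {b c x : S} :
    x ∈ L b c ↔ ∃ f g, x = (b * f - f * b) + (c * g - g * c) := Iff.rfl

theorem comm_mem_L {S : Type*} [Ring S] {b c u : S} (hu : u ∈ Subring.closure {b, c}) :
    ∀ v : S, u * v - v * u ∈ L b c := by
  induction hu using Subring.closure_induction with
  | mem x hx =>
    intro v
    rcases hx with rfl | hx
    · exact ⟨v, 0, by simp⟩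
    · rw [Set.mem_singleton_iff] at hx
      subst hx
      exact ⟨0, v, by simp⟩
  | zero =>
    intro v
    rw [zero_mul, mul_zero, sub_zero]
    exact (L b c).zero_mem
  | one =>
    intro v
    rw [one_mul, mul_one, sub_self]
    exact (L b c).zero_mem
  | add x y _ _ hx hy =>
    intro v
    have e : (x + y) * v - v * (x + y) = (x * v - v * x) + (y * v - v * y) := by noncomm_ring
    rw [e]
    exact (L b c).add_mem (hx v) (hy v)
  | neg x _ hx =>
    intro v
    have e : -x * v - v * -x = -(x * v - v * x) := by noncomm_ring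
    rw [e]
    exact (L b c).neg_mem (hx v)
  | mul x y _ _ hx hy =>
    intro v
    have e : x * y * v - v * (x * y) = (x * (y * v) - (y * v) * x) + (y * (v * x) - (v * x) * y) := by
      noncomm_ring
    rw [e]
    exact (L b c).add_mem (hx _) (hy _)

theorem exists_pow_eq {S : Type*} [Ring S] {p : ℕ} (hp : p.Prime) (h0 : (p : S) = 0) {b c : S}
    (hb : IsNilpotent b) (hc : IsNilpotent c) :
    ∃ e f g, (b + c) ^ p ^ e = (b * f - f * b) + (c * g - g * c) := by
  obtain ⟨m, hm⟩ := hb
  obtain ⟨n, hn⟩ := hc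
  obtain ⟨A, hA⟩ : ∃ A : Subring S, A = Subring.closure {b, c} := ⟨_, rfl⟩
  have hbA : b ∈ A := by
    rw [hA]
    exact Subring.subset_closure (Set.mem_insert _ _)
  have hcA : c ∈ A := by
    rw [hA]
    exact Subring.subset_closure (Set.mem_insert_of_mem _ rfl)
  have h0A : ((p : ℕ) : A) = 0 := by
    apply Subtype.ext
    push_cast
    exact h0
  have h1 := frob_iter hp h0A ⟨b, hbA⟩ ⟨c, hcA⟩ (m + n)
  have hlt : m + n < p ^ (m + n) := Nat.lt_pow_self hp.one_lt
  have hb0 : (⟨b, hbA⟩ : A) ^ p ^ (m + n) = 0 := by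
    apply Subtype.ext
    exact pow_eq_zero_of_le (by omega) hm
  have hc0 : (⟨c, hcA⟩ : A) ^ p ^ (m + n) = 0 := by
    apply Subtype.ext
    exact pow_eq_zero_of_le (by omega) hn
  rw [hb0, hc0, sub_zero, sub_zero] at h1
  have h2 : ∀ x ∈ D A, (x : S) ∈ L b c := by
    intro x hx
    unfold D at hx
    induction hx using AddSubgroup.closure_induction with
    | mem x hx =>
      obtain ⟨u, v, rfl⟩ := hx
      have h3 : (u : S) ∈ Subring.closure {b, c} := by
        rw [← hA]
        exact u.2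
      exact comm_mem_L h3 v
    | zero => exact (L b c).zero_mem
    | add x y _ _ hx hy => exact (L b c).add_mem hx hy
    | neg x _ hx => exact (L b c).neg_mem hx
  obtain ⟨f, g, hfg⟩ := h2 _ h1
  exact ⟨m + n, f, g, hfg⟩

end Pool.Agent.HComm
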