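import Pool.Agent.HComm.Core

/-!
# Rings without identity
-/

namespace Pool.Agent.HComm

/-- the power `x ^ (n + 1)` in a ring without identity -/
def pow1 {R : Type*} [NonUnitalRing R] (x : R) : ℕ → R
  | 0 => x
  | n + 1 => pow1 x n * x

/-- `x` is nilpotent -/
def Nilp {R : Type*} [NonUnitalRing R] (x : R) : Prop := ∃ n, pow1 x n = 0

/-- the only nil two-sided ideal of `R` is zero -/
def NoNil (R : Type*) [NonUnitalRing R] : Prop :=
  ∀ I : TwoSidedIdeal R, (∀ x ∈ I, Nilp x) → ∀ x ∈ I, x = 0

section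

variable {k R : Type*} [CommRing k] [IsReduced k] [NonUnitalRing R] [Module k R]
  [IsScalarTower k R R] [SMulCommClass k R R]

open Unitization

omit [IsReduced k] in
theorem inr_pow1 (x : R) (n : ℕ) :
    (inr (pow1 x n) : Unitization k R) = (inr x : Unitization k R) ^ (n + 1) := by
  induction n with
  | zero => simp [pow1]
  | succ n ih => rw [pow1, inr_mul, ih, ← pow_succ]

omit [IsReduced k] in
theorem nilp_iff (x : R) : Nilp x ↔ IsNilpotent (inr x : Unitization k R) := by
  constructor
  · rintro ⟨n, hn⟩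
    refine ⟨n + 1, ?_⟩
    rw [← inr_pow1, hn, inr_zero]
  · rintro ⟨n, hn⟩
    refine ⟨n, ?_⟩
    have h1 : (inr (pow1 x n) : Unitization k R) = inr 0 := by
      rw [inr_pow1, pow_succ, hn, zero_mul, inr_zero]
    exact inr_injective h1

theorem eq_inr {s : Unitization k R} (h : IsNilpotent s) : s = inr s.snd := by
  have h1 : IsNilpotent s.fst := by
    obtain ⟨n, hn⟩ := h
    refine ⟨n, ?_⟩
    have h2 : (fstHom k R) (s ^ n) = (fstHom k R s) ^ n := map_pow _ _ _
    rw [hn, map_zero] at h2
    exact h2.symm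
  have h3 := h1.eq_zero
  ext
  · rw [h3, fst_inr]
  · rw [snd_inr]

omit [IsReduced k] in
theorem comm_eq (s t : Unitization k R) :
    s * t - t * s = inr (s.snd * t.snd - t.snd * s.snd) := by
  ext
  · show (s * t).fst - (t * s).fst = (inr (s.snd * t.snd - t.snd * s.snd) : Unitization k R).fst
    rw [fst_mul, fst_mul, fst_inr, mul_comm, sub_self]
  · show (s * t).snd - (t * s).snd = (inr (s.snd * t.snd - t.snd * s.snd) : Unitization k R).snd
    rw [snd_mul, snd_mul, snd_inr]
    abel

theorem noNil_unit (h : NoNil R) (I : TwoSidedIdeal (Unitization k R))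
    (hI : ∀ x ∈ I, IsNilpotent x) (x : Unitization k R) (hx : x ∈ I) : x = 0 := by
  have h1 := eq_inr (hI x hx)
  have h2 : x.snd = 0 := by
    refine h (I.comap (inrNonUnitalAlgHom k R)) ?_ x.snd ?_
    · intro r hr
      rw [TwoSidedIdeal.mem_comap] at hr
      exact (nilp_iff (k := k) r).2 (hI _ hr)
    · rw [TwoSidedIdeal.mem_comap]
      have e : (inrNonUnitalAlgHom k R) x.snd = x := h1.symm
      rw [e]
      exact hx
  rw [h1, h2, inr_zero]

theorem nilR_snd {c : Unitization k R} (h : NilR c) :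
    c = inr c.snd ∧ Nilp c.snd ∧ ∀ r : R, Nilp (c.snd * r) := by
  have h1 := eq_inr h.nil
  refine ⟨h1, ?_, ?_⟩
  · rw [nilp_iff (k := k), ← h1]
    exact h.nil
  · intro r
    rw [nilp_iff (k := k), inr_mul, ← h1]
    exact h _

end

end Pool.Agent.HComm
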